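import Pool.Agent.V1137.Cogr.Blow

/-!
# An infinite antichain of weakly random cograph limits

For `m ≥ 2` let `φ_m` be the recursive blow-up limit of `K_m[\bar K_2] = K_{2,…,2}`.  Then
`P(φ_m) = Q(φ_m)` is the class of cographs.  If `ψ ⪯ φ` then `ψ(H) ≤ C^{|H|} φ(H)`; comparing
the densities of cliques and of independent sets shows that `φ_m` for `m = 2^(4^k)` are pairwise
incomparable.
-/

open MeasureTheory unitInterval

namespace Pool.Agent.Results.MP_815355_co.Antichain

open Pool.Agent.V1137.Cogr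

variable {a b : ℕ} {n N : ℕ}

lemma vol_same [NeZero a] [NeZero b] {g : I → ℕ → V a b} (hg : IsCoding g) (t : ℕ)
    {i j : Fin N} (hij : i ≠ j) :
    volume.real {x : Fin N → I | word t (g (x i)) = word t (g (x j))} =
      1 / (((a * b : ℕ) : ℝ)) ^ t := by
  classical
  have he : Function.Injective (![i, j] : Fin 2 → Fin N) := by
    intro p q h
    fin_cases p <;> fin_cases q <;> simp_all
  have hmp := mp_comp (N := N) (![i, j] : Fin 2 → Fin N) he
  set T : Finset (Fin 2 → Wd a b t) := Finset.univ.filter (fun w => w 0 = w 1) with hT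
  have hset : {x : Fin N → I | word t (g (x i)) = word t (g (x j))} =
      (fun (x : Fin N → I) (k : Fin 2) => x ((![i, j] : Fin 2 → Fin N) k)) ⁻¹'
        {y : Fin 2 → I | wds g t y ∈ T} := by
    ext x
    simp [hT, wds]
  have hmeas : MeasurableSet {y : Fin 2 → I | wds g t y ∈ T} := by
    have : {y : Fin 2 → I | wds g t y ∈ T} = ⋃ w ∈ T, {y : Fin 2 → I | wds g t y = w} := by
      ext x; simp
    rw [this]
    exact Finset.measurableSet_biUnion _ fun w _ => measurableSet_wds hg t w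
  rw [hset, hmp.measureReal_preimage hmeas.nullMeasurableSet, vol_wds hg]
  have hcard : T.card = (a * b) ^ t := by
    have h1 : T = Finset.univ.image (fun (v : Wd a b t) (_ : Fin 2) => v) := by
      ext w
      simp only [hT, Finset.mem_filter, Finset.mem_univ, true_and, Finset.mem_image]
      constructor
      · intro h
        refine ⟨w 0, ?_⟩
        funext k
        fin_cases k
        · rfl
        · exact h
      · rintro ⟨v, rfl⟩; rfl
    rw [h1, Finset.card_image_of_injective _ (fun v v' h => congrFun h 0)]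
    simp
  have hpos := pos_card_V (a := a) (b := b)
  rw [hcard]
  push_cast
  field_simp

lemma card_le_image_add {α : Type} [DecidableEq α] (f : Fin N → α) (K : Finset (Fin N)) :
    K.card ≤ (K.image f).card +
      ((prs N).filter (fun p => p.1 ∈ K ∧ p.2 ∈ K ∧ f p.1 = f p.2)).card := by
  classical
  induction K using Finset.induction_on_max with
  | empty => simp
  | insert m K hlt ih =>
    have hm : m ∉ K := fun h => lt_irrefl _ (hlt m h)
    rw [Finset.card_insert_of_notMem hm, Finset.image_insert]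
    have hsub : (prs N).filter (fun p => p.1 ∈ K ∧ p.2 ∈ K ∧ f p.1 = f p.2) ⊆
        (prs N).filter (fun p => p.1 ∈ insert m K ∧ p.2 ∈ insert m K ∧ f p.1 = f p.2) := by
      intro p hp
      simp only [Finset.mem_filter, Finset.mem_insert] at hp ⊢
      tauto
    by_cases hmem : f m ∈ K.image f
    · rw [Finset.insert_eq_self.2 hmem]
      obtain ⟨k, hk, hfk⟩ := Finset.mem_image.1 hmem
      have hlt2 : ((prs N).filter (fun p => p.1 ∈ K ∧ p.2 ∈ K ∧ f p.1 = f p.2)).card <
          ((prs N).filter (fun p => p.1 ∈ insert m K ∧ p.2 ∈ insert m K ∧ f p.1 = f p.2)).card := by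
        refine Finset.card_lt_card ⟨hsub, fun h => ?_⟩
        have h1 : (k, m) ∈ (prs N).filter
            (fun p => p.1 ∈ insert m K ∧ p.2 ∈ insert m K ∧ f p.1 = f p.2) := by
          simp [prs, hlt k hk, hk, hfk]
        have := h h1
        simp only [Finset.mem_filter] at this
        exact hm this.2.2.1
      omega
    · rw [Finset.card_insert_of_notMem hmem]
      have := Finset.card_le_card hsub
      omega

/-- Persistence of cographs in sub-objects. -/
theorem persist [NeZero a] [NeZero b] (ha : 2 ≤ a) (hb : 2 ≤ b) {g : I → ℕ → V a b}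
    (hg : IsCoding g) (W : Graphon) (hW : dens W = dens (blow g hg.1)) (f : I → ℝ)
    (hf : Measurable f) (hf' : ∀ t, 0 ≤ f t ∧ f t ≤ 1) (hpos : 0 < ∫ t : I, f t)
    (H : SimpleGraph (Fin n)) (hc : Cog H Set.univ) :
    0 < ∫ x : Fin n → I, (∏ i, f (x i)) * ind W H x := by
  classical
  by_contra hcon
  have h0 : ∫ x : Fin n → I, (∏ i, f (x i)) * ind W H x = 0 := by
    refine le_antisymm (not_lt.1 hcon) (integral_nonneg fun x => ?_)
    exact mul_nonneg (prodf_bdd hf' x).1 (ind_nonneg W H x)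
  set δ : ℝ := ∫ t : I, f t with hδ
  set η : ℝ := δ / 4 with hη
  have hηpos : 0 < η := by rw [hη]; positivity
  obtain ⟨T, hT⟩ := small_of_cog hc ha hb (η ^ 2) (by positivity)
  have hN1 : (1 : ℝ) < ((a * b : ℕ) : ℝ) := by
    have : 2 * 2 ≤ a * b := Nat.mul_le_mul ha hb
    have : 1 < a * b := by omega
    exact_mod_cast this
  obtain ⟨t0, ht0⟩ := pow_unbounded_of_one_lt (1 / η) hN1
  set t : ℕ := max T t0 with ht
  set L : ℝ := ((a * b : ℕ) : ℝ) ^ t with hL
  have hLbig : 1 / η < L := lt_of_lt_of_le ht0 (pow_le_pow_right₀ hN1.le (le_max_right _ _))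
  have hLpos : 0 < L := lt_trans (by positivity) hLbig
  have hηL : 1 < η * L := by
    rw [div_lt_iff₀ hηpos] at hLbig
    linarith
  set N : ℕ := ⌈η * L⌉₊ with hN
  have hNge : η * L ≤ N := Nat.le_ceil _
  have hNle : (N : ℝ) ≤ 2 * (η * L) := by
    have := Nat.ceil_lt_add_one (show 0 ≤ η * L by positivity)
    rw [← hN] at this
    linarith
  have hcount := count_ineq W f hf hf' H h0 N
  rw [hW] at hcount
  -- the collision function
  set coll : (Fin N → I) → ℝ := fun x =>
    ∑ p ∈ prs N, Set.indicator {x : Fin N → I | word t (g (x p.1)) = word t (g (x p.2))}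
      (fun _ => (1 : ℝ)) x with hcoll
  have hcolln : ∀ x, 0 ≤ coll x := fun x => Finset.sum_nonneg fun p _ =>
    Set.indicator_nonneg (fun _ _ => zero_le_one) _
  have hpt : ∀ x : Fin N → I, ∑ s ∈ (prs N).powerset,
      (alph H (gr s) : ℝ) * ind (blow g hg.1) (gr s) x ≤ η ^ 2 * L + coll x := by
    intro x
    have hstep : ∀ s ∈ (prs N).powerset,
        (alph H (gr s) : ℝ) * ind (blow g hg.1) (gr s) x ≤
          (η ^ 2 * L + coll x) * ind (blow g hg.1) (gr s) x := by
      intro s _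
      by_cases hz : ind (blow g hg.1) (gr s) x = 0
      · rw [hz]; simp
      · refine mul_le_mul_of_nonneg_right ?_ (ind_nonneg _ _ _)
        have hpat : x ∈ Pat g (gr s) := by
          by_contra hx
          rw [ind_blow hg.1, if_neg hx] at hz
          exact hz rfl
        refine alph_le (by have := hcolln x; positivity) fun K hK => ?_
        set F : Fin N → Wd a b t := fun i => word t (g (x i)) with hF
        have h1 := card_le_image_add F K
        have h2 : ¬ Emb H Set.univ ((K.image F : Finset (Wd a b t)) : Set (Wd a b t)) := by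
          rintro ⟨e, he1, he2⟩
          apply hK
          have hch : ∀ i : Fin n, ∃ k ∈ K, F k = e i := by
            intro i
            have := he1 i (Set.mem_univ i)
            simpa using this
          choose k hk hk2 using hch
          refine ⟨k, hk, fun i j hij => ?_⟩
          have h3 := he2 i (Set.mem_univ i) j (Set.mem_univ j) hij
          have hkne : k i ≠ k j := by
            intro h
            apply h3.1
            rw [← hk2 i, ← hk2 j, h]
          refine ⟨hkne, ?_⟩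
          rw [hpat (k i) (k j) hkne, ← h3.2, ← hk2 i, ← hk2 j]
          exact adjX_iff_word (by
            have : F (k i) ≠ F (k j) := by rw [hk2 i, hk2 j]; exact h3.1
            exact this)
        have h3 : (((K.image F).card : ℕ) : ℝ) ≤ η ^ 2 * L :=
          hT t (le_max_left _ _) _ h2
        have h4 : ((((prs N).filter (fun p => p.1 ∈ K ∧ p.2 ∈ K ∧ F p.1 = F p.2)).card : ℕ) : ℝ)
            ≤ coll x := by
          rw [hcoll]
          simp only
          have h5 : ((((prs N).filter (fun p => p.1 ∈ K ∧ p.2 ∈ K ∧ F p.1 = F p.2)).card : ℕ) : ℝ)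
              = ∑ p ∈ (prs N).filter (fun p => p.1 ∈ K ∧ p.2 ∈ K ∧ F p.1 = F p.2),
                Set.indicator {x : Fin N → I | word t (g (x p.1)) = word t (g (x p.2))}
                  (fun _ => (1 : ℝ)) x := by
            rw [Finset.card_eq_sum_ones]
            push_cast
            refine Finset.sum_congr rfl fun p hp => ?_
            rw [Finset.mem_filter] at hp
            rw [Set.indicator_of_mem]
            exact hp.2.2.2
          rw [h5]
          exact Finset.sum_le_sum_of_subset_of_nonneg (Finset.filter_subset _ _)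
            fun p _ _ => Set.indicator_nonneg (fun _ _ => zero_le_one) _
        have h6 : (K.card : ℝ) ≤ ((K.image F).card : ℝ) +
            (((prs N).filter (fun p => p.1 ∈ K ∧ p.2 ∈ K ∧ F p.1 = F p.2)).card : ℝ) := by
          exact_mod_cast h1
        linarith
    refine (Finset.sum_le_sum hstep).trans ?_
    rw [← Finset.mul_sum, sum_ind, mul_one]
  have hmeasS : ∀ p ∈ prs N, MeasurableSet
      {x : Fin N → I | word t (g (x p.1)) = word t (g (x p.2))} := by
    intro p _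
    have h1 : Measurable (fun x : Fin N → I => (word t (g (x p.1)), word t (g (x p.2)))) :=
      ((measurable_word t).comp (hg.1.comp (measurable_pi_apply p.1))).prodMk
        ((measurable_word t).comp (hg.1.comp (measurable_pi_apply p.2)))
    exact h1 (Set.to_countable {q : Wd a b t × Wd a b t | q.1 = q.2}).measurableSet
  have hcollint : Integrable coll := by
    refine integrable_finsetSum _ fun p hp => ?_
    exact (integrable_const (1 : ℝ)).indicator (hmeasS p hp)
  have hcollval : ∫ x, coll x ≤ (N : ℝ) ^ 2 / L := by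
    rw [hcoll]
    rw [integral_finsetSum _ (fun p hp => (integrable_const (1 : ℝ)).indicator (hmeasS p hp))]
    have h1 : ∀ p ∈ prs N, ∫ x : Fin N → I,
        Set.indicator {x : Fin N → I | word t (g (x p.1)) = word t (g (x p.2))}
          (fun _ => (1 : ℝ)) x = 1 / L := by
      intro p hp
      rw [integral_indicator (hmeasS p hp)]
      have hne : p.1 ≠ p.2 := by
        have : p.1 < p.2 := by simpa [prs] using hp
        exact ne_of_lt this
      simp only [integral_const, smul_eq_mul, mul_one, measureReal_restrict_apply_univ]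
      exact vol_same hg t hne
    rw [Finset.sum_congr rfl h1, Finset.sum_const, nsmul_eq_mul]
    have hcardp : ((prs N).card : ℝ) ≤ (N : ℝ) ^ 2 := by
      have : (prs N).card ≤ (Finset.univ : Finset (Fin N × Fin N)).card :=
        Finset.card_le_card (Finset.filter_subset _ _)
      simp only [Finset.card_univ, Fintype.card_prod, Fintype.card_fin] at this
      rw [sq]; exact_mod_cast this
    rw [mul_one_div]
    exact div_le_div_of_nonneg_right hcardp hLpos.le
  have hR : ∑ s ∈ (prs N).powerset, (alph H (gr s) : ℝ) * dens (blow g hg.1) N (gr s) ≤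
      η ^ 2 * L + (N : ℝ) ^ 2 / L := by
    have h1 : ∑ s ∈ (prs N).powerset, (alph H (gr s) : ℝ) * dens (blow g hg.1) N (gr s) =
        ∫ x : Fin N → I, ∑ s ∈ (prs N).powerset,
          (alph H (gr s) : ℝ) * ind (blow g hg.1) (gr s) x := by
      rw [integral_finsetSum _ (fun s _ => (integrable_ind _ (gr s)).const_mul _)]
      refine Finset.sum_congr rfl fun s _ => ?_
      rw [integral_const_mul]
      rfl
    rw [h1]
    have h2 : ∫ x : Fin N → I, ∑ s ∈ (prs N).powerset,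
          (alph H (gr s) : ℝ) * ind (blow g hg.1) (gr s) x ≤
        ∫ x : Fin N → I, (η ^ 2 * L + coll x) :=
      integral_mono (integrable_finsetSum _ fun s _ => (integrable_ind _ (gr s)).const_mul _)
        ((integrable_const _).add hcollint) hpt
    refine h2.trans ?_
    rw [integral_add (integrable_const _) hcollint]
    simp only [integral_const, smul_eq_mul, probReal_univ, one_mul]
    linarith
  have hfin := hcount.trans hR
  rw [← hδ] at hfin
  have hNpos : 0 < (N : ℝ) := by linarith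
  have e1 : η ^ 2 * L ≤ η * N := by
    have := mul_le_mul_of_nonneg_left hNge hηpos.le
    calc η ^ 2 * L = η * (η * L) := by ring
      _ ≤ η * N := this
  have e2 : (N : ℝ) ^ 2 / L ≤ 2 * η * N := by
    rw [div_le_iff₀ hLpos]
    have := mul_le_mul_of_nonneg_left hNle hNpos.le
    nlinarith
  have e3 : δ = 4 * η := by rw [hη]; ring
  rw [e3] at hfin
  nlinarith

/-! ### The family -/

/-- The number of parts: `2^(4^k)`. -/
def aa (k : ℕ) : ℕ := 2 ^ (4 ^ k)

instance (k : ℕ) : NeZero (aa k) := ⟨by unfold aa; positivity⟩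

lemma two_le_aa (k : ℕ) : 2 ≤ aa k := by
  unfold aa
  calc 2 = 2 ^ 1 := by norm_num
    _ ≤ 2 ^ (4 ^ k) := Nat.pow_le_pow_right (by norm_num) (Nat.one_le_pow _ _ (by norm_num))

lemma aa_pow_le {k l : ℕ} (h : k < l) : aa k ^ 4 ≤ aa l := by
  unfold aa
  rw [← pow_mul]
  refine Nat.pow_le_pow_right (by norm_num) ?_
  calc 4 ^ k * 4 = 4 ^ (k + 1) := by ring
    _ ≤ 4 ^ l := Nat.pow_le_pow_right (by norm_num) h

/-- A coding for the `k`-th graphon. -/
noncomputable def gg (k : ℕ) : I → ℕ → V (aa k) 2 := (exists_coding (aa k) 2).choose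

lemma gg_coding (k : ℕ) : IsCoding (gg k) := (exists_coding (aa k) 2).choose_spec

/-- The `k`-th limit: recursive blow-up of the complete `2^(4^k)`-partite graph with parts of
size two. -/
noncomputable def phi (k : ℕ) : Limit := ⟨dens (blow (gg k) (gg_coding k).1), _, rfl⟩

lemma phi_mem (k : ℕ) : phi k ∈ PhiF := by
  have h1 : P (phi k) ⊆ Q (phi k) := fun H hH => hH (phi k) (subObj_refl _)
  have h2 : Q (phi k) ⊆ Cographs := by
    rintro ⟨n, H⟩ hH
    exact cog_of_dens_pos (gg_coding k).1 hH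
  have h3 : Cographs ⊆ P (phi k) := by
    rintro ⟨n, H⟩ hH ψ hψ
    obtain ⟨W, f, hW, hf, hf', hpos, hsub⟩ := hψ
    show 0 < ψ.1 n H
    rw [← hsub]
    exact div_pos (persist (two_le_aa k) le_rfl (gg_coding k) W hW f hf hf' hpos H hH)
      (pow_pos hpos n)
  refine ⟨Set.Subset.antisymm h1 (h2.trans h3), Set.Subset.antisymm h2 (h3.trans h1)⟩

lemma pow_le_exp_factorial (n : ℕ) : (n : ℝ) ^ n ≤ Real.exp 1 ^ n * (n.factorial : ℝ) := by
  have h := Real.pow_div_factorial_le_exp (n : ℝ) (Nat.cast_nonneg n) n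
  rw [div_le_iff₀ (by positivity)] at h
  rw [← Real.exp_nat_mul, mul_one]
  exact h

/-- Cliques: for `k < l`, `φ_l` is not a sub-object of `φ_k`. -/
lemma not_sub_clique {k l : ℕ} (hkl : k < l) : ¬ SubObj (phi l) (phi k) := by
  intro hs
  obtain ⟨C, hC1, hC⟩ := subObj_dom hs
  obtain ⟨d, hd⟩ := pow_unbounded_of_one_lt (2 * Real.exp 1 * C) (show (1 : ℝ) < 2 by norm_num)
  set A := aa k with hA
  set B := aa l with hB
  have hA2 : 2 ≤ A := two_le_aa k
  have hB2 : 2 ≤ B := two_le_aa l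
  have hAB : A ^ 4 ≤ B := aa_pow_le hkl
  set n := B ^ d with hn
  have hn0 : n ≠ 0 := by rw [hn]; positivity
  have h1 : ((B ^ d).factorial : ℝ) / ((((B * 2 : ℕ) : ℝ)) ^ d) ^ (B ^ d) ≤ (phi l).1 n ⊤ :=
    dens_top_ge (gg_coding l) d
  have h2 := hC n ⊤
  have h3 : (phi k).1 n ⊤ ≤ ((((2 ^ (2 * d)) ^ (A ^ (2 * d)) * (A ^ (2 * d)) ^ n : ℕ)) : ℝ) /
      ((((A * 2 : ℕ) : ℝ)) ^ (2 * d)) ^ n := dens_top_le (gg_coding k) n (2 * d)
  have hCpos : 0 < C := by linarith
  have h4 := (h1.trans h2).trans (mul_le_mul_of_nonneg_left h3 (by positivity : 0 ≤ C ^ n))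
  rw [← hn] at h4
  have hAr : (0 : ℝ) < A := by exact_mod_cast (by omega : 0 < A)
  have hBr : (0 : ℝ) < B := by exact_mod_cast (by omega : 0 < B)
  push_cast at h4
  rw [← mul_div_assoc, div_le_div_iff₀ (by positivity) (by positivity)] at h4
  -- exponent inequality
  have hexp : 2 * d * A ^ (2 * d) ≤ n := by
    have e1 : 2 * d ≤ A ^ (2 * d) :=
      (Nat.lt_two_pow_self (n := 2 * d)).le.trans (Nat.pow_le_pow_left hA2 _)
    calc 2 * d * A ^ (2 * d) ≤ A ^ (2 * d) * A ^ (2 * d) := Nat.mul_le_mul_right _ e1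
      _ = (A ^ 4) ^ d := by rw [← pow_add, ← pow_mul]; congr 1; ring
      _ ≤ B ^ d := Nat.pow_le_pow_left hAB d
  have hexp2 : ((2 : ℝ) ^ (2 * d)) ^ (A ^ (2 * d)) ≤ 2 ^ n := by
    rw [← pow_mul]
    exact pow_le_pow_right₀ (by norm_num) hexp
  have hfac := pow_le_exp_factorial n
  have hnr : (n : ℝ) = (B : ℝ) ^ d := by rw [hn]; push_cast; ring
  rw [hnr] at hfac
  -- combine
  have h5 : ((B : ℝ) ^ d) ^ n * (((A : ℝ) ^ (2 * d)) ^ n * ((2 : ℝ) ^ (2 * d)) ^ n) ≤
      Real.exp 1 ^ n * (C ^ n * (2 ^ n * ((A : ℝ) ^ (2 * d)) ^ n) * (((B : ℝ) ^ d) ^ n * ((2 : ℝ) ^ d) ^ n)) := by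
    calc ((B : ℝ) ^ d) ^ n * (((A : ℝ) ^ (2 * d)) ^ n * ((2 : ℝ) ^ (2 * d)) ^ n)
        ≤ (Real.exp 1 ^ n * (n.factorial : ℝ)) *
          (((A : ℝ) ^ (2 * d)) ^ n * ((2 : ℝ) ^ (2 * d)) ^ n) :=
          mul_le_mul_of_nonneg_right hfac (by positivity)
      _ = Real.exp 1 ^ n * ((n.factorial : ℝ) * (((A : ℝ) * 2) ^ (2 * d)) ^ n) := by
          rw [mul_pow, mul_pow]; ring
      _ ≤ Real.exp 1 ^ n * (C ^ n * (((2 : ℝ) ^ (2 * d)) ^ (A ^ (2 * d)) *
            ((A : ℝ) ^ (2 * d)) ^ n) * (((B : ℝ) * 2) ^ d) ^ n) :=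
          mul_le_mul_of_nonneg_left h4 (by positivity)
      _ ≤ Real.exp 1 ^ n * (C ^ n * (2 ^ n * ((A : ℝ) ^ (2 * d)) ^ n) *
            (((B : ℝ) * 2) ^ d) ^ n) := by
          gcongr
      _ = _ := by rw [mul_pow (B : ℝ) 2 d, mul_pow ((B : ℝ) ^ d)]
  have h6 : ((2 : ℝ) ^ d) ^ n ≤ (2 * Real.exp 1 * C) ^ n := by
    have hX : 0 < ((B : ℝ) ^ d) ^ n * ((A : ℝ) ^ (2 * d)) ^ n * ((2 : ℝ) ^ d) ^ n := by positivity
    refine le_of_mul_le_mul_left ?_ hX
    calc ((B : ℝ) ^ d) ^ n * ((A : ℝ) ^ (2 * d)) ^ n * ((2 : ℝ) ^ d) ^ n * ((2 : ℝ) ^ d) ^ n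
        = ((B : ℝ) ^ d) ^ n * (((A : ℝ) ^ (2 * d)) ^ n * ((2 : ℝ) ^ (2 * d)) ^ n) := by
          have : (2 : ℝ) ^ (2 * d) = 2 ^ d * 2 ^ d := by rw [← pow_add]; congr 1; ring
          rw [this, mul_pow]; ring
      _ ≤ _ := h5
      _ = ((B : ℝ) ^ d) ^ n * ((A : ℝ) ^ (2 * d)) ^ n * ((2 : ℝ) ^ d) ^ n *
            (2 * Real.exp 1 * C) ^ n := by rw [mul_pow, mul_pow]; ring
  have h7 := (pow_le_pow_iff_left₀ (by positivity) (by positivity) hn0).1 h6
  exact absurd h7 (not_le.2 hd)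

/-- Independent sets: for `k < l`, `φ_k` is not a sub-object of `φ_l`. -/
lemma not_sub_indep {k l : ℕ} (hkl : k < l) : ¬ SubObj (phi k) (phi l) := by
  intro hs
  obtain ⟨C, hC1, hC⟩ := subObj_dom hs
  set A := aa k with hA
  set B := aa l with hB
  have hA2 : 2 ≤ A := two_le_aa k
  have hB2 : 2 ≤ B := two_le_aa l
  have hAB : A ^ 4 ≤ B := aa_pow_le hkl
  have hAr2 : (2 : ℝ) ≤ A := by exact_mod_cast hA2
  have hAr : (0 : ℝ) < A := by linarith
  have hBr : (0 : ℝ) < B := by exact_mod_cast (by omega : 0 < B)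
  have hBr1 : (1 : ℝ) ≤ B := by exact_mod_cast (by omega : 1 ≤ B)
  obtain ⟨t, ht⟩ := pow_unbounded_of_one_lt (Real.exp 1 * C * B)
    (show (1 : ℝ) < (A : ℝ) ^ 2 by nlinarith)
  set n := 2 ^ (2 * t) with hn
  have hn0 : n ≠ 0 := by rw [hn]; positivity
  have h1 : ((2 ^ (2 * t)).factorial : ℝ) / ((((A * 2 : ℕ) : ℝ)) ^ (2 * t)) ^ (2 ^ (2 * t)) ≤
      (phi k).1 n ⊥ := dens_bot_ge (gg_coding k) (2 * t)
  have h2 := hC n ⊥
  have h3 : (phi l).1 n ⊥ ≤ ((((B ^ t) ^ (2 ^ t) * (2 ^ t) ^ n : ℕ)) : ℝ) /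
      ((((B * 2 : ℕ) : ℝ)) ^ t) ^ n := dens_bot_le (gg_coding l) n t
  have hCpos : 0 < C := by linarith
  have h4 := (h1.trans h2).trans (mul_le_mul_of_nonneg_left h3 (by positivity : 0 ≤ C ^ n))
  rw [← hn] at h4
  push_cast at h4
  rw [← mul_div_assoc, div_le_div_iff₀ (by positivity) (by positivity)] at h4
  have hexp : t * 2 ^ t ≤ n := by
    calc t * 2 ^ t ≤ 2 ^ t * 2 ^ t := Nat.mul_le_mul_right _ (Nat.lt_two_pow_self (n := t)).le
      _ = 2 ^ (2 * t) := by rw [← pow_add]; congr 1; ring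
  have hexp2 : ((B : ℝ) ^ t) ^ (2 ^ t) ≤ (B : ℝ) ^ n := by
    rw [← pow_mul]
    exact pow_le_pow_right₀ hBr1 hexp
  have hfac := pow_le_exp_factorial n
  have hnr : (n : ℝ) = (2 : ℝ) ^ (2 * t) := by rw [hn]; push_cast; ring
  rw [hnr] at hfac
  have h5 : ((2 : ℝ) ^ (2 * t)) ^ n * (((B : ℝ) ^ t) ^ n * ((2 : ℝ) ^ t) ^ n) ≤
      Real.exp 1 ^ n * (C ^ n * ((B : ℝ) ^ n * ((2 : ℝ) ^ t) ^ n) *
        (((A : ℝ) ^ (2 * t)) ^ n * ((2 : ℝ) ^ (2 * t)) ^ n)) := by
    calc ((2 : ℝ) ^ (2 * t)) ^ n * (((B : ℝ) ^ t) ^ n * ((2 : ℝ) ^ t) ^ n)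
        ≤ (Real.exp 1 ^ n * (n.factorial : ℝ)) * (((B : ℝ) ^ t) ^ n * ((2 : ℝ) ^ t) ^ n) :=
          mul_le_mul_of_nonneg_right hfac (by positivity)
      _ = Real.exp 1 ^ n * ((n.factorial : ℝ) * (((B : ℝ) * 2) ^ t) ^ n) := by
          rw [mul_pow, mul_pow]; ring
      _ ≤ Real.exp 1 ^ n * (C ^ n * (((B : ℝ) ^ t) ^ (2 ^ t) * ((2 : ℝ) ^ t) ^ n) *
            (((A : ℝ) * 2) ^ (2 * t)) ^ n) := mul_le_mul_of_nonneg_left h4 (by positivity)
      _ ≤ Real.exp 1 ^ n * (C ^ n * ((B : ℝ) ^ n * ((2 : ℝ) ^ t) ^ n) *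
            (((A : ℝ) * 2) ^ (2 * t)) ^ n) := by gcongr
      _ = _ := by rw [mul_pow (A : ℝ) 2, mul_pow ((A : ℝ) ^ (2 * t))]
  have h6 : ((B : ℝ) ^ t) ^ n ≤ (Real.exp 1 * C * B * (A : ℝ) ^ (2 * t)) ^ n := by
    have hX : 0 < ((2 : ℝ) ^ (2 * t)) ^ n * ((2 : ℝ) ^ t) ^ n := by positivity
    refine le_of_mul_le_mul_left ?_ hX
    calc ((2 : ℝ) ^ (2 * t)) ^ n * ((2 : ℝ) ^ t) ^ n * ((B : ℝ) ^ t) ^ n
        = ((2 : ℝ) ^ (2 * t)) ^ n * (((B : ℝ) ^ t) ^ n * ((2 : ℝ) ^ t) ^ n) := by ring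
      _ ≤ _ := h5
      _ = ((2 : ℝ) ^ (2 * t)) ^ n * ((2 : ℝ) ^ t) ^ n *
            (Real.exp 1 * C * B * (A : ℝ) ^ (2 * t)) ^ n := by
          rw [mul_pow, mul_pow, mul_pow]; ring
  have h7 := (pow_le_pow_iff_left₀ (by positivity) (by positivity) hn0).1 h6
  have h8 : ((A : ℝ) ^ 2) ^ t * (A : ℝ) ^ (2 * t) ≤ (B : ℝ) ^ t := by
    have : ((A : ℝ) ^ 4) ^ t ≤ (B : ℝ) ^ t := by
      refine pow_le_pow_left₀ (by positivity) ?_ t
      exact_mod_cast hAB
    calc ((A : ℝ) ^ 2) ^ t * (A : ℝ) ^ (2 * t) = ((A : ℝ) ^ 4) ^ t := by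
          rw [← pow_mul, ← pow_add, ← pow_mul]; congr 1; ring
      _ ≤ _ := this
  have h9 : ((A : ℝ) ^ 2) ^ t ≤ Real.exp 1 * C * B :=
    le_of_mul_le_mul_right (h8.trans h7) (by positivity)
  exact absurd h9 (not_le.2 ht)

lemma incomparable {k l : ℕ} (h : k ≠ l) : ¬ SubObj (phi k) (phi l) := by
  rcases lt_or_gt_of_ne h with hlt | hlt
  · exact not_sub_indep hlt
  · exact not_sub_clique hlt

lemma phi_injective : Function.Injective phi := by
  intro k l h
  by_contra hne
  exact incomparable hne (h ▸ subObj_refl (phi k))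

/-- **Main result**: `(Φ_F, ⪯)` for the class `F` of cographs contains an infinite antichain. -/
theorem result : ∃ A : Set Limit, A ⊆ PhiF ∧ A.Infinite ∧
    ∀ φ ∈ A, ∀ ψ ∈ A, φ ≠ ψ → ¬ SubObj φ ψ := by
  refine ⟨Set.range phi, ?_, Set.infinite_range_of_injective phi_injective, ?_⟩
  · rintro _ ⟨k, rfl⟩
    exact phi_mem k
  · rintro _ ⟨k, rfl⟩ _ ⟨l, rfl⟩ hne
    exact incomparable fun h => hne (by rw [h])

end Pool.Agent.Results.MP_815355_co.Antichain
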